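import Pool.Agent.Helper621.PatCol
import Pool.Agent.Helper621.RBlk2
import Pool.Agent.Helper621.AutG
import Pool.Agent.Helper621.EffMain

/-!
# Every finite group action is realised on an invariant set of points by the full automorphism
group of a 2-(v,k,1) design, for k ≥ 10 (adapted from `Pool.Agent.Helper621.AutMain`)
-/

namespace Pool.Agent.Y345.Aut

open Pool.Agent.Helper621

set_option linter.unusedSectionVars false
set_option synthInstance.maxSize 2048

open Finset

/-- Transport of a design with known automorphism group to `Fin v`. -/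
theorem transport_aut2 {X : Type} [Fintype X] {G : Type} [Group G] {k : ℕ}
    (𝓑 : Set (Finset X)) (h1 : ∀ B ∈ 𝓑, B.card = k)
    (h2 : ∀ x y, x ≠ y → ∃! B, B ∈ 𝓑 ∧ x ∈ B ∧ y ∈ B)
    (φ : G →* Equiv.Perm X) (hφ : Function.Injective φ)
    (h3 : ∀ g : G, ∀ B ∈ 𝓑, B.map (φ g).toEmbedding ∈ 𝓑)
    (h4 : ∀ α : Equiv.Perm X, (∀ B ∈ 𝓑, B.map α.toEmbedding ∈ 𝓑) →
      (∀ B ∈ 𝓑, B.map α.symm.toEmbedding ∈ 𝓑) → ∃ g, α = φ g) (hX : ∃ x y : X, x ≠ y) :
    ∃ (v : ℕ) (B : Finset (Finset (Fin v))) (e : X ≃ Fin v), k ≤ v ∧ (∀ b ∈ B, b.card = k) ∧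
      (∀ x y : Fin v, x ≠ y → ∃! b, b ∈ B ∧ x ∈ b ∧ y ∈ b) ∧
      ∃ ψ : G →* Equiv.Perm (Fin v), Function.Injective ψ ∧ (∀ g x, ψ g (e x) = e (φ g x)) ∧
        ∀ σ : Equiv.Perm (Fin v), B.image (fun b => b.image σ) = B ↔ ∃ g, ψ g = σ := by
  classical
  let e : X ≃ Fin (Fintype.card X) := Fintype.equivFin X
  have hmm : ∀ b : Finset X, (b.map e.toEmbedding).map e.symm.toEmbedding = b := by
    intro b
    ext x
    simp
  have hmm' : ∀ b : Finset (Fin (Fintype.card X)),
      (b.map e.symm.toEmbedding).map e.toEmbedding = b := by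
    intro b
    ext x
    simp
  let ψ : G →* Equiv.Perm (Fin (Fintype.card X)) :=
    { toFun := fun g => (e.symm.trans (φ g)).trans e
      map_one' := by ext x; simp
      map_mul' := fun g h => by ext x; simp }
  refine ⟨Fintype.card X, univ.filter (fun b => b.map e.symm.toEmbedding ∈ 𝓑), e, ?_, ?_, ?_,
    ψ, ?_, ?_, ?_⟩
  · obtain ⟨x, y, hxy⟩ := hX
    obtain ⟨B, ⟨hB, _, _⟩, _⟩ := h2 x y hxy
    rw [← h1 B hB]
    exact card_le_univ B
  · intro b hb
    rw [mem_filter] at hb
    have := h1 _ hb.2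
    rwa [card_map] at this
  · intro x y hxy
    obtain ⟨B, ⟨hB, hx, hy⟩, huniq⟩ := h2 (e.symm x) (e.symm y)
      (fun h => hxy (e.symm.injective h))
    refine ⟨B.map e.toEmbedding, ⟨?_, ?_, ?_⟩, ?_⟩
    · rw [mem_filter]
      exact ⟨mem_univ _, by rw [hmm]; exact hB⟩
    · rw [mem_map]
      exact ⟨e.symm x, hx, by simp⟩
    · rw [mem_map]
      exact ⟨e.symm y, hy, by simp⟩
    · rintro C ⟨hC, hxC, hyC⟩
      rw [mem_filter] at hC
      have h4 := huniq (C.map e.symm.toEmbedding) ⟨hC.2, mem_map_of_mem _ hxC,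
        mem_map_of_mem _ hyC⟩
      rw [← hmm' C, h4]
  · intro g h hgh
    apply hφ
    ext x
    have h5 := congrArg (fun σ : Equiv.Perm (Fin (Fintype.card X)) => σ (e x)) hgh
    simpa [ψ] using h5
  · intro g x
    simp [ψ]
  · intro σ
    set 𝓕 : Finset (Finset (Fin (Fintype.card X))) :=
      univ.filter (fun b => b.map e.symm.toEmbedding ∈ 𝓑) with h𝓕
    have hmem : ∀ b, b ∈ 𝓕 ↔ b.map e.symm.toEmbedding ∈ 𝓑 := fun b => by simp [h𝓕]
    constructor
    · intro hσ
      set α : Equiv.Perm X := (e.trans σ).trans e.symm with hα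
      obtain ⟨g, hg⟩ := h4 α (by
        intro b hb
        have h5 : b.map e.toEmbedding ∈ 𝓕 := by rw [hmem, hmm]; exact hb
        have h6 : (b.map e.toEmbedding).image σ ∈ 𝓕 := by
          rw [← hσ]
          exact mem_image_of_mem _ h5
        rw [hmem] at h6
        have h7 : ((b.map e.toEmbedding).image σ).map e.symm.toEmbedding =
            b.map α.toEmbedding := by
          simp only [map_eq_image, image_image]
          rfl
        rwa [h7] at h6) (by
        intro b hb
        have h5 : b.map e.toEmbedding ∈ 𝓕 := by rw [hmem, hmm]; exact hb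
        rw [← hσ, mem_image] at h5
        obtain ⟨c, hc, hcb⟩ := h5
        rw [hmem] at hc
        have h7 : b.map α.symm.toEmbedding = c.map e.symm.toEmbedding := by
          have h8 : b = (c.image σ).map e.symm.toEmbedding := by rw [hcb, hmm]
          rw [h8]
          simp only [map_eq_image, image_image]
          apply image_congr
          intro x _
          simp [hα]
        rw [h7]
        exact hc)
      refine ⟨g, ?_⟩
      ext x
      have h8 := congrArg (fun β : Equiv.Perm X => e (β (e.symm x))) hg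
      simp only [hα, Equiv.trans_apply, Equiv.apply_symm_apply] at h8
      rw [h8]
      rfl
    · rintro ⟨g, rfl⟩
      apply eq_of_subset_of_card_le
      · intro c hc
        obtain ⟨b, hb, rfl⟩ := mem_image.1 hc
        rw [hmem] at hb ⊢
        have h6 := h3 g _ hb
        have h7 : (b.image (ψ g)).map e.symm.toEmbedding =
            (b.map e.symm.toEmbedding).map (φ g).toEmbedding := by
          simp only [map_eq_image, image_image]
          apply image_congr
          intro x _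
          simp [ψ]
        rw [h7]
        exact h6
      · rw [card_image_of_injective]
        intro b c hbc
        exact image_injective (ψ g).injective hbc

/-- Every action of a finite group `G` on a finite set `Y` is realised, on an invariant set of
points, by the full automorphism group of a design on at least `N` points. -/
theorem main_act (k : ℕ) (hk : 10 ≤ k) (G : Type) [Group G] [Finite G] (Y : Type) [Finite Y]
    [MulAction G Y] (N : ℕ) :
    ∃ (v : ℕ) (B : Finset (Finset (Fin v))), N ≤ v ∧ k ≤ v ∧ (∀ b ∈ B, b.card = k) ∧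
      (∀ x y : Fin v, x ≠ y → ∃! b, b ∈ B ∧ x ∈ b ∧ y ∈ b) ∧
      ∃ (ψ : G →* Equiv.Perm (Fin v)) (ι : Y → Fin v), Function.Injective ψ ∧
        Function.Injective ι ∧ (∀ g y, ψ g (ι y) = ι (g • y)) ∧
        ∀ σ : Equiv.Perm (Fin v), B.image (fun b => b.image σ) = B ↔ ∃ g, ψ g = σ := by
  classical
  have : Fintype G := Fintype.ofFinite G
  obtain ⟨r, hr⟩ : ∃ r, r = k / 2 := ⟨_, rfl⟩
  have hrpos : 0 < r := by omega
  have hkr : 2 * r + (if k % 2 = 1 then 1 else 0) = k := by
    split_ifs <;> omega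
  set K := k * (k - 1) with hKdef
  have hkK : k ≤ K := by
    have : k * 1 ≤ k * (k - 1) := Nat.mul_le_mul_left _ (by omega)
    omega
  have hKpos : 0 < K := by omega
  set δ := r * r * 3 * 2 with hδ
  have hδpos : 0 < δ := by positivity
  -- the hole design
  set Ty := Option (Option (Option G)) → Bool with hTy
  obtain ⟨N1, hN1⟩ := exists_hole k (by omega)
  obtain ⟨p, hp, hpN, hpmod⟩ := Nat.exists_prime_gt_modEq_one (k := δ * K)
    (N1 + δ * (K + 2) + (Fintype.card Ty + k) + 1) (by positivity)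
  obtain ⟨u, hu⟩ := (Nat.modEq_iff_dvd' hp.one_lt.le).1 hpmod.symm
  set t := K * u with ht
  have hpt : p = δ * t + 1 := by
    have : p - 1 = δ * t := by rw [hu, ht]; ring
    have := hp.one_lt
    omega
  have htK : K + 2 ≤ t := by
    by_contra hcon
    have h1 : t ≤ K + 2 := by omega
    have h2 : δ * t ≤ δ * (K + 2) := Nat.mul_le_mul_left _ h1
    omega
  obtain ⟨H0, hH01, hH02⟩ := hN1 p hp (by omega) ⟨δ * u, by rw [hu]; ring⟩
  -- labels
  have : NeZero p := ⟨hp.ne_zero⟩
  have hcardLab : Fintype.card (Lab r (Bool × Fin t)) = δ * t := by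
    simp [hδ, ZMod.card]
    ring
  have hcardW : Fintype.card (Option (Lab r (Bool × Fin t))) = Fintype.card (ZMod p) := by
    rw [Fintype.card_option, ZMod.card, hpt, hcardLab]
  have eW : ZMod p ≃ Option (Lab r (Bool × Fin t)) := (Fintype.equivOfCardEq hcardW).symm
  obtain ⟨H, hH1, hH2⟩ := transport_equiv eW H0 hH01 hH02
  obtain ⟨𝓗, h𝓗inj, h𝓗⟩ := exists_types (k := k) (by omega) H hH1 hH2 Ty (by
    rw [hcardW, ZMod.card]; omega)
  -- multiplicities
  set N2 := (t - 2).factorial with hN2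
  have hN2pos : 0 < N2 := Nat.factorial_pos _
  have hcardD : Fintype.card (D0 r) = δ := by
    simp [hδ, ZMod.card]
  have hdisj : Disjoint (posSet k 2 (by omega)) (posSet k 6 (by omega)) := by
    rw [disjoint_left]
    intro l h1 h2
    have h3 := mem_posSet h1
    have h4 := mem_posSet h2
    omega
  have hpar : ∀ i j : Fin k, i ≠ j → ∀ d d' : D0 r,
      4 * (univ.filter (fun g : ParData (D0 r) colD (posSet k 2 (by omega))
        (posSet k 6 (by omega)) => g.1 i = d ∧ g.1 j = d')).card = δ ^ (k - 2) := by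
    intro i j hij d d'
    rw [← hcardD]
    exact card_parData colD flipD colD_flip flipD_flip _ _ hdisj
      (by rw [card_posSet]; norm_num) (by rw [card_posSet]; norm_num) hij d d'
  set n2 := δ ^ (k - 2) / 4 with hn2
  have hn2' : ∀ i j : Fin k, i ≠ j → ∀ d d' : D0 r,
      (univ.filter (fun g : ParData (D0 r) colD (posSet k 2 (by omega))
        (posSet k 6 (by omega)) => g.1 i = d ∧ g.1 j = d')).card = n2 := by
    intro i j hij d d'
    have := hpar i j hij d d'
    omega
  let i0 : Fin k := ⟨0, by omega⟩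
  let i1 : Fin k := ⟨1, by omega⟩
  have h01 : i0 ≠ i1 := by
    intro h
    simp [i0, i1, Fin.ext_iff] at h
  have hn2pos : 0 < n2 := by
    have h1 := hpar i0 i1 h01 (((⟨0, hrpos⟩, ⟨0, hrpos⟩), 0), true)
      (((⟨0, hrpos⟩, ⟨0, hrpos⟩), 0), true)
    have h2 := hn2' i0 i1 h01 (((⟨0, hrpos⟩, ⟨0, hrpos⟩), 0), true)
      (((⟨0, hrpos⟩, ⟨0, hrpos⟩), 0), true)
    have h3 : 0 < δ ^ (k - 2) := by positivity
    omega
  set M0 := 2 * (K * ((δ * (δ * n2)) * ((t - 1) * N2))) with hM0
  have hM0pos : 0 < M0 := by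
    have : 0 < t - 1 := by omega
    positivity
  obtain ⟨M, hM⟩ : ∃ M, M = r * r * M0 := ⟨_, rfl⟩
  have hMpos : 0 < M := by rw [hM]; positivity
  have hMe : Even M := ⟨r * r * (K * ((δ * (δ * n2)) * ((t - 1) * N2))), by rw [hM, hM0]; ring⟩
  -- row sums
  let a0 : D0 r := (((⟨0, hrpos⟩, ⟨0, hrpos⟩), 0), true)
  set s1 := ∑ b, phi2 r k a0 b with hs1
  have hs1le : s1 ≤ δ * (r * r) := by
    rw [hs1, ← hcardD]
    refine (sum_le_card_nsmul _ _ (r * r) fun b _ => phi2_le _ _).trans ?_
    rw [smul_eq_mul, card_univ]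
  obtain ⟨A, hA⟩ : ∃ A, A = 2 * (r * r) * δ ^ 2 * (t - 1) - (K - 2) * s1 * δ := ⟨_, rfl⟩
  have harith := arith_choice2 (K := K) (s1 := s1) (δ := δ) (rr := r * r) (N2 := N2) (n2 := n2)
    (t := t) (by omega) hs1le (by omega)
  rw [← hA] at harith
  -- the index type
  have hkt : k ≤ t := by omega
  let κ : Fin k → Fin t := Fin.castLE hkt
  have hκ : Function.Injective κ := Fin.castLE_injective hkt
  obtain ⟨R, hR⟩ : ∃ R : Type, R = PatIdx2 (D0 r) (Fin t)
    (ParData (D0 r) colD (posSet k 2 (by omega)) (posSet k 6 (by omega))) A K (phi2 r k) :=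
    ⟨_, rfl⟩
  subst hR
  set R := PatIdx2 (D0 r) (Fin t)
    (ParData (D0 r) colD (posSet k 2 (by omega)) (posSet k 6 (by omega))) A K (phi2 r k) with hR
  set cR := Fintype.card R with hcR
  -- the big field
  obtain ⟨Na, hNa⟩ := exists_rblocks2 M k p r cR hMpos
  obtain ⟨Nb, hNb⟩ := exists_sdata r hrpos M hMpos hMe
  have hG : 0 < Nat.card G := Nat.card_pos
  set M' := fineM M k cR with hM'
  have hM'pos : 0 < M' := by rw [hM']; unfold fineM; omega
  obtain ⟨q, hq, hqN, hqmod⟩ := Nat.exists_prime_gt_modEq_one (k := 2 * (M * M') * Nat.card G)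
    (Na + Nb + 2 + Nat.card Y + N) (by positivity)
  obtain ⟨u', hu'⟩ := (Nat.modEq_iff_dvd' hq.one_lt.le).1 hqmod.symm
  set m' := 2 * Nat.card G * u' with hm'
  have hqm' : q = (M * M') * m' + 1 := by
    have h1 : q - 1 = (M * M') * m' := by rw [hu', hm']; ring
    have := hq.one_lt
    omega
  have hm'pos : 0 < m' := by
    rcases Nat.eq_zero_or_pos m' with h | h
    · rw [h] at hqm'; omega
    · exact h
  have hm'e : Even m' := ⟨Nat.card G * u', by rw [hm']; ring⟩
  obtain ⟨m, hm⟩ : ∃ m, m = M' * m' := ⟨_, rfl⟩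
  have hqm : q = M * m + 1 := by rw [hqm', hm]; ring
  have hmpos : 0 < m := by rw [hm]; positivity
  have hme : Even m := by rw [hm]; exact hm'e.mul_left _
  have hGm : Nat.card G ∣ m := ⟨M' * (2 * u'), by rw [hm, hm']; ring⟩
  have : Fact q.Prime := ⟨hq⟩
  have hcardF : Fintype.card (ZMod q) = M * m + 1 := by rw [ZMod.card, hqm]
  have hcardF' : Fintype.card (ZMod q) = (M * M') * m' + 1 := by rw [ZMod.card, hqm']
  have h2ne : (2 : ZMod q) ≠ 0 := by
    intro h
    have h1 : ((2 : ℕ) : ZMod q) = 0 := by exact_mod_cast h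
    rw [ZMod.natCast_eq_zero_iff] at h1
    have := Nat.le_of_dvd (by norm_num) h1
    omega
  have hnat : ∀ x : ZMod q, ∃ n : ℕ, (n : ZMod q) = x := fun x =>
    ⟨x.val, ZMod.natCast_zmod_val x⟩
  obtain ⟨S, hSψ⟩ := hNb (ZMod q) m hmpos hme hcardF (by rw [ZMod.card]; omega) h2ne M0 hM.symm
  -- patterns
  let P : R → Fin k → Lab r (Bool × Fin t) := fun x i =>
    relab (pat2 (fun g => g.1) i0 i1 κ x i)
  have hP : ∀ x, Function.Injective (P x) := fun x =>
    relab_inj.comp (pat2_injective _ phi2_self h01 hκ x)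
  have hcardT : Fintype.card (Fin t) = t := Fintype.card_fin t
  have hmu : (mu (ZMod q) M).card = M := card_mu hcardF hMpos hmpos
  have hslots : ∀ w w' : Lab r (Bool × Fin t), w ≠ w' →
      (univ.filter (fun x : R × (Fin k × Fin k) => P x.1 x.2.1 = w ∧ P x.1 x.2.2 = w')).card =
      (lam S (k % 2 = 1) w w').card := by
    intro w w' hw
    have h1 := card_slots2 (A := A) (F0 := K) (by omega) (fun g : ParData (D0 r) colD
      (posSet k 2 (by omega)) (posSet k 6 (by omega)) => g.1) hn2' (phi2_symm (r := r) (k := k))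
      (fun a => phi2_sum a a0) h01 hκ (by rw [hcardT]; omega)
      ((w.1, w.2.1), w.2.2) ((w'.1, w'.2.1), w'.2.2) (by
        intro h
        apply hw
        simp only [Prod.mk.injEq] at h
        obtain ⟨⟨h1, h2⟩, h3⟩ := h
        exact Prod.ext h1 (Prod.ext h2 h3))
    have h2 : (univ.filter (fun x : R × (Fin k × Fin k) => P x.1 x.2.1 = w ∧
        P x.1 x.2.2 = w')) = (univ.filter (fun x : R × (Fin k × Fin k) =>
        pat2 (fun g => g.1) i0 i1 κ x.1 x.2.1 = ((w.1, w.2.1), w.2.2) ∧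
        pat2 (fun g => g.1) i0 i1 κ x.1 x.2.2 = ((w'.1, w'.2.1), w'.2.2))) := by
      ext x
      simp only [mem_filter, mem_univ, true_and, P, relab_eq]
    rw [h2, h1, card_lam S hM.symm hmu hSψ w w', hcardT, hcardD]
    simp only
    by_cases ht2 : w.2.2 = w'.2.2
    · rw [if_pos ht2]
      by_cases ht1 : w.2.1 = w'.2.1
      · rw [if_pos (Prod.ext ht1 ht2)]
        simp only [phi2, if_pos ht1]
        rw [hM0]; ring
      · rw [if_neg (fun h => ht1 (congrArg Prod.fst h))]
        simp only [phi2, if_neg ht1]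
        rw [hM, hM0]; ring
    · rw [if_neg ht2, if_neg (fun h => ht2 (congrArg Prod.snd h)), ← hKdef, ← hN2, ← hs1, hM,
        hM0, harith]
  obtain ⟨b, hb1, hb2, hb3, hb4, hb5⟩ := hNa (ZMod q) R (Lab r (Bool × Fin t)) m' hm'pos hm'e
    hcardF' (by rw [ZMod.card]; omega) hcR.symm P hP
    (lam S (k % 2 = 1)) (lam_symm S _) (lam_self S _)
    (fun w w' z hz => ((mem_lam S _ w w' z).1 hz).1) hslots S.c
    (fun x i => vsp epsT P (x, i))
  have hcolors : ∀ x e, ∃ i j, colW epsT (P x i) = e ∧ colW epsT (P x j) = e ∧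
      (P x i).2 ≠ (P x j).2 := by
    intro x e
    obtain ⟨i, j, h1, h2, h3⟩ := pat_colors hk hκ x e
    refine ⟨i, j, h1, h2, ?_⟩
    intro h
    exact h3 (congrArg (fun τ : Bool × Fin t => τ.2) h)
  have hocc : ∀ w, ∃ x i, P x i = w := by
    intro w
    have h1 : (lam S (k % 2 = 1) w ((w.1, (!w.2.1, w.2.2)) : Lab r (Bool × Fin t))).card = M := by
      rw [card_lam S hM.symm hmu hSψ, if_neg]
      intro h
      have h2 := congrArg Prod.fst h
      simp only at h2
      revert h2
      cases w.2.1 <;> decide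
    obtain ⟨z, hz⟩ : (lam S (k % 2 = 1) w
        ((w.1, (!w.2.1, w.2.2)) : Lab r (Bool × Fin t))).Nonempty := by
      rw [← card_pos, h1]; exact hMpos
    obtain ⟨x, i, j, _, hi, _⟩ := hb3 _ _ z hz
    exact ⟨x, i, hi⟩
  rw [← hm] at hb1 hb2 hb3
  clear_value P
  obtain ⟨D, hDS, hDP, hDb, hbinj⟩ := exists_rdata S (k % 2 = 1) hkr P hP
    (lam S (k % 2 = 1)) (mem_lam S _) b hb1 hb2 hb3
  subst hDS hDP hDb
  have hr2 : 2 ≤ r := by omega
  have hT3 : 3 ≤ Fintype.card (Bool × Fin t) := by
    simp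
    omega
  have hcardk := fun E hE => design2_card (G := G) (Ω := Option G) D.BF (fun v => 𝓗 (tyV v))
    (fun v => (h𝓗 _).1) E hE
  have hpair := design2_pairs (G := G) (Ω := Option G) hmpos hcardF hGm D.BF
    (fun v => 𝓗 (tyV v)) (fun v => (h𝓗 _).2)
  have hWne : Nonempty (Lab r (Bool × Fin t)) := ⟨(a0.1, (true, ⟨0, by omega⟩))⟩
  let w0 : Lab r (Bool × Fin t) := (a0.1, (true, ⟨0, by omega⟩))
  obtain ⟨v, B, e, hkv, hBk, hBp, ψ, hψ, he, hB⟩ := transport_aut2 (blocks2 (dirSet2 G (Option G) (ZMod q) m) D.BF.B (fun v => 𝓗 (tyV v)))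
    hcardk hpair (pointHom2 G (Option G) (ZMod q) (Lab r (Bool × Fin t))) pointHom2_injective
    (fun g B hB => design2_inv D.BF.B _ (fun g v => by rw [tyV_act]) g B hB)
    (fun α hα hα' => aut_is_group D hcardF hGm hnat 𝓗 h𝓗inj h𝓗 (p := p)
      (by rw [hcardLab, hpt]) hr2 (by omega) hT3 epsT hcolors
      hb5 hbinj hocc (hm'e.mul_left M) hb4 α hα hα')
    ⟨none, some (0, (a0.1, (true, ⟨0, by omega⟩))), by simp⟩
  have hcF : Fintype.card (ZMod q) = q := ZMod.card q
  have hYF : Nat.card Y ≤ q := by omega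
  have : Fintype Y := Fintype.ofFinite Y
  obtain ⟨E⟩ : Nonempty (Y ↪ ZMod q) := Function.Embedding.nonempty_of_card_le (by
    rw [hcF, ← Nat.card_eq_fintype_card]; exact hYF)
  let emb : Y → (Option G → ZMod q) := fun y z => z.elim 0 (fun h => E (h⁻¹ • y))
  refine ⟨v, B, ?_, hkv, hBk, hBp, ψ, fun y => e (some (emb y, w0)), hψ, ?_, ?_, hB⟩
  · have h1 : Function.Injective (fun c : ZMod q => e (some ((fun _ => c : Option G → ZMod q), w0))) := by
      intro c d hcd
      have h2 := e.injective hcd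
      simp only [Option.some.injEq, Prod.mk.injEq, and_true] at h2
      exact congrFun h2 none
    have h2 := Fintype.card_le_of_injective _ h1
    rw [hcF, Fintype.card_fin] at h2
    omega
  · intro y y' hyy
    have h2 := e.injective hyy
    simp only [Option.some.injEq, Prod.mk.injEq, and_true] at h2
    have h3 := congrFun h2 (some (1 : G))
    simp only [emb, Option.elim_some, inv_one, one_smul] at h3
    exact E.injective h3
  · intro g y
    rw [he, pointHom2_some]
    congr 3
    funext z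
    rcases z with _ | h
    · rfl
    · change emb y (g⁻¹ • (some h)) = E (h⁻¹ • (g • y))
      change E ((g⁻¹ * h)⁻¹ • y) = _
      rw [mul_inv_rev, inv_inv, mul_smul]

end Pool.Agent.Y345.Aut
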